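import Pool.Agent.EllSch.Add

/-!
# QCL.Sig : the Weierstrass sigma function of the lattice `ℤ a + ℤ b`

`sig a b z = z ∏ (1 - z/λ) exp (z/λ + z²/(2λ²))`. The factor of `λ = 0` is `1` (as `z / 0 = 0`), so
the product may run over all of `ℤ × ℤ`.
-/

open Filter Topology Complex

namespace QCL

open Pool.Agent.EllSch

noncomputable section

/-- the Weierstrass sigma function -/
def sig (a b z : ℂ) : ℂ :=
  z * ∏' x : ℤ × ℤ, (1 - z / lat a b x) * exp (z / lat a b x + (z / lat a b x) ^ 2 / 2)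

variable {a b : ℂ}

private def EE (a b : ℂ) (x : ℤ × ℤ) (z : ℂ) : ℂ :=
  (1 - z / lat a b x) * exp (z / lat a b x + (z / lat a b x) ^ 2 / 2)

private theorem sig_eq (a b z : ℂ) : sig a b z = z * ∏' x : ℤ × ℤ, EE a b x z := rfl

private theorem sm3 (h : Ind a b) : Summable fun x : ℤ × ℤ => ‖lat a b x‖⁻¹ ^ 3 := by
  have h1 : Summable fun z : (pp h).lattice => ‖z‖ ^ (-3 : ℝ) :=
    ZLattice.summable_norm_rpow _ _ (by simp; norm_num)
  rw [← (pp h).latticeEquivProd.symm.toEquiv.summable_iff] at h1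
  refine h1.congr fun x => ?_
  change ‖(((pp h).latticeEquivProd.symm x : (pp h).lattice) : ℂ)‖ ^ (-3 : ℝ) = _
  rw [pp_symm_coe, Real.rpow_neg (norm_nonneg _), inv_pow]
  norm_cast

private theorem hasDerivAt_g (v : ℂ) :
    HasDerivAt (fun v : ℂ => (1 - v) * exp (v + v ^ 2 / 2)) (-v ^ 2 * exp (v + v ^ 2 / 2)) v := by
  have h1 : HasDerivAt (fun v : ℂ => 1 - v) (-1) v := by
    simpa using (hasDerivAt_id v).const_sub 1
  have h2 : HasDerivAt (fun v : ℂ => v + v ^ 2 / 2) (1 + v) v := by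
    refine ((hasDerivAt_id v).add ((hasDerivAt_pow 2 v).div_const 2)).congr_deriv ?_
    simp
  refine (h1.mul h2.cexp).congr_deriv ?_
  ring

private theorem exp32 : Real.exp (3 / 2) ≤ 5 := by
  have h1 : Real.exp (3 / 2) ^ 2 = Real.exp 1 ^ 3 := by
    rw [← Real.exp_nat_mul, ← Real.exp_nat_mul]
    norm_num
  have h2 : Real.exp 1 ^ 3 ≤ (5 : ℝ) ^ 2 := by
    calc Real.exp 1 ^ 3 ≤ (2.7182818286 : ℝ) ^ 3 :=
          pow_le_pow_left₀ (Real.exp_pos 1).le Real.exp_one_lt_d9.le 3
      _ ≤ _ := by norm_num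
  rw [← h1] at h2
  exact (pow_le_pow_iff_left₀ (Real.exp_pos _).le (by norm_num) (by norm_num)).1 h2

private theorem E_bound (w : ℂ) (hw : ‖w‖ ≤ 1) :
    ‖(1 - w) * exp (w + w ^ 2 / 2) - 1‖ ≤ 5 * ‖w‖ ^ 3 := by
  have h3 := (convex_closedBall (0 : ℂ) ‖w‖).norm_image_sub_le_of_norm_hasDerivWithin_le
    (f := fun v : ℂ => (1 - v) * exp (v + v ^ 2 / 2))
    (f' := fun v => -v ^ 2 * exp (v + v ^ 2 / 2)) (C := 5 * ‖w‖ ^ 2)
    (x := 0) (y := w)
    (fun v _ => (hasDerivAt_g v).hasDerivWithinAt)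
    (fun v hv => by
      have hv' : ‖v‖ ≤ ‖w‖ := by simpa using hv
      have hv1 : ‖v‖ ≤ 1 := hv'.trans hw
      have he : ‖exp (v + v ^ 2 / 2)‖ ≤ 5 := by
        refine (Complex.norm_exp_le_exp_norm _).trans ((Real.exp_le_exp.2 ?_).trans exp32)
        refine (norm_add_le _ _).trans ?_
        rw [norm_div, norm_pow]
        have : ‖(2 : ℂ)‖ = 2 := by simp
        rw [this]
        have h2 : ‖v‖ ^ 2 ≤ 1 := pow_le_one₀ (norm_nonneg _) hv1
        linarith
      rw [norm_mul, norm_neg, norm_pow]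
      calc ‖v‖ ^ 2 * ‖exp (v + v ^ 2 / 2)‖ ≤ ‖w‖ ^ 2 * 5 := by gcongr
        _ = 5 * ‖w‖ ^ 2 := by ring)
    (by simp) (by simp)
  have h4 : ((1 : ℂ) - 0) * exp (0 + 0 ^ 2 / 2) = 1 := by simp
  have h5 : ‖(1 - w) * exp (w + w ^ 2 / 2) - (1 - 0) * exp (0 + 0 ^ 2 / 2)‖ ≤
      5 * ‖w‖ ^ 2 * ‖w - 0‖ := h3
  rw [h4, sub_zero] at h5
  calc _ ≤ 5 * ‖w‖ ^ 2 * ‖w‖ := h5
    _ = _ := by ring

private theorem EE_diff (a b : ℂ) (x : ℤ × ℤ) : Differentiable ℂ (EE a b x) := by
  intro z
  have h1 : EE a b x = (fun v : ℂ => (1 - v) * exp (v + v ^ 2 / 2)) ∘ fun z => z / lat a b x := rfl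
  rw [h1]
  exact (hasDerivAt_g _).differentiableAt.comp z (by fun_prop)

private theorem EE_bd {r : ℝ} (hr : 0 < r) {x : ℤ × ℤ} (hx : ‖lat a b x‖⁻¹ ^ 3 < r⁻¹ ^ 3) {z : ℂ}
    (hz : ‖z‖ ≤ r) : ‖EE a b x z - 1‖ ≤ 5 * r ^ 3 * ‖lat a b x‖⁻¹ ^ 3 := by
  have h1 : ‖lat a b x‖⁻¹ < r⁻¹ := lt_of_pow_lt_pow_left₀ 3 (by positivity) hx
  have h2 : ‖z / lat a b x‖ ≤ r * ‖lat a b x‖⁻¹ := by
    rw [norm_div, div_eq_mul_inv]
    gcongr
  have h3 : r * ‖lat a b x‖⁻¹ ≤ 1 := by
    calc r * ‖lat a b x‖⁻¹ ≤ r * r⁻¹ := by gcongr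
      _ = 1 := mul_inv_cancel₀ hr.ne'
  refine (E_bound _ (h2.trans h3)).trans ?_
  calc 5 * ‖z / lat a b x‖ ^ 3 ≤ 5 * (r * ‖lat a b x‖⁻¹) ^ 3 := by gcongr
    _ = _ := by ring

private theorem ev_small (h : Ind a b) {r : ℝ} (hr : 0 < r) :
    ∀ᶠ x in cofinite, ‖lat a b x‖⁻¹ ^ 3 < r⁻¹ ^ 3 :=
  (sm3 h).tendsto_cofinite_zero.eventually_lt_const (by positivity)

private theorem EE_prod (h : Ind a b) {r : ℝ} (hr : 0 < r) :
    HasProdLocallyUniformlyOn (fun (x : ℤ × ℤ) z => EE a b x z) (fun z => ∏' x, EE a b x z)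
      (Metric.ball (0 : ℂ) r) := by
  have := Summable.hasProdLocallyUniformlyOn_one_add (f := fun x z => EE a b x z - 1)
    (K := Metric.ball (0 : ℂ) r) (u := fun x => 5 * r ^ 3 * ‖lat a b x‖⁻¹ ^ 3) Metric.isOpen_ball
    ((sm3 h).mul_left (5 * r ^ 3))
    (by
      filter_upwards [ev_small h hr] with x hx z hz
      exact EE_bd hr hx (by simpa using (Metric.mem_ball.1 hz).le))
    (fun x => ((EE_diff a b x).sub_const 1).continuous.continuousOn)
  simpa using this

private theorem P_diff (h : Ind a b) : Differentiable ℂ fun z => ∏' x, EE a b x z := by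
  intro z
  have hr : (0 : ℝ) < ‖z‖ + 1 := by positivity
  have h1 : DifferentiableOn ℂ (fun z => ∏' x, EE a b x z) (Metric.ball (0 : ℂ) (‖z‖ + 1)) :=
    (EE_prod h hr).differentiableOn
      (.of_forall fun _ ↦ by
        simpa [Finset.prod_fn] using
          DifferentiableOn.finsetProd (fun x _ ↦ (EE_diff a b x).differentiableOn))
      Metric.isOpen_ball
  exact h1.differentiableAt (Metric.isOpen_ball.mem_nhds (by simp))

private theorem EE_zero (a b : ℂ) (x : ℤ × ℤ) : EE a b x 0 = 1 := by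
  simp [EE]

private theorem EE_ne {z : ℂ} (hz : Off a b z) (x : ℤ × ℤ) : EE a b x z ≠ 0 := by
  unfold EE
  refine mul_ne_zero ?_ (exp_ne_zero _)
  intro h0
  by_cases hl : lat a b x = 0
  · rw [hl] at h0
    simp at h0
  · apply hz x
    have h1 : z / lat a b x = 1 := by linear_combination -h0
    field_simp at h1
    exact h1

private theorem P_ne (h : Ind a b) {z : ℂ} (hz : Off a b z) : ∏' x, EE a b x z ≠ 0 := by
  have h1 : ∏' x, (1 + (EE a b x z - 1)) ≠ 0 := by
    refine tprod_one_add_ne_zero_of_summable ?_ ?_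
    · intro x
      rw [add_sub_cancel]
      exact EE_ne hz x
    · have hr : (0 : ℝ) < ‖z‖ + 1 := by positivity
      refine Summable.of_norm_bounded_eventually ((sm3 h).mul_left (5 * (‖z‖ + 1) ^ 3)) ?_
      filter_upwards [ev_small h hr] with x hx
      rw [norm_norm]
      exact EE_bd hr hx (by linarith)
  simpa using h1

private theorem off_ne {z : ℂ} (hz : Off a b z) : z ≠ 0 := by
  have := hz 0
  rwa [lat_zero] at this

private theorem logDeriv_EE {z : ℂ} (hz : Off a b z) (x : ℤ × ℤ) :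
    logDeriv (EE a b x) z =
      (1 / (z - lat a b x) + 1 / lat a b x + z / lat a b x ^ 2) -
        (if lat a b x = 0 then 1 / z else 0) := by
  have h1 : HasDerivAt (EE a b x) ((-(z / lat a b x) ^ 2 *
      exp (z / lat a b x + (z / lat a b x) ^ 2 / 2)) * (1 / lat a b x)) z := by
    have h2 : HasDerivAt (fun z => z / lat a b x) (1 / lat a b x) z :=
      (hasDerivAt_id z).div_const _
    exact (hasDerivAt_g (z / lat a b x)).comp z h2
  rw [logDeriv_apply, h1.deriv]
  by_cases hl : lat a b x = 0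
  · rw [if_pos hl, hl]
    simp
  · rw [if_neg hl, sub_zero, EE]
    have h3 : z - lat a b x ≠ 0 := sub_ne_zero.2 (hz x)
    have h4 : 1 - z / lat a b x ≠ 0 := by
      intro h0
      apply h3
      field_simp at h0
      linear_combination -h0
    have h5 : exp (z / lat a b x + (z / lat a b x) ^ 2 / 2) ≠ 0 := exp_ne_zero _
    generalize exp (z / lat a b x + (z / lat a b x) ^ 2 / 2) = e at h5 ⊢
    have h6 : lat a b x - z ≠ 0 := by
      intro h0
      apply h3
      linear_combination -h0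
    field_simp
    ring

private theorem logDeriv_P (h : Ind a b) {z : ℂ} (hz : Off a b z) :
    logDeriv (fun z => ∏' x, EE a b x z) z = wz a b z - 1 / z := by
  have hr : (0 : ℝ) < ‖z‖ + 1 := by positivity
  have hs : HasSum (fun x : ℤ × ℤ => (if lat a b x = 0 then 1 / z else 0)) (1 / z) := by
    have h1 : ∀ x : ℤ × ℤ, (if lat a b x = 0 then 1 / z else 0) =
        if x = 0 then 1 / z else 0 := by
      intro x
      have : lat a b x = 0 ↔ x = 0 := by
        rw [← lat_zero a b]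
        exact (lat_injective h).eq_iff
      simp only [this]
    simp only [h1]
    exact hasSum_ite_eq 0 (1 / z)
  have hsum : HasSum (fun x : ℤ × ℤ => logDeriv (EE a b x) z) (wz a b z - 1 / z) := by
    have h1 := (summable_wz h z).hasSum.sub hs
    refine h1.congr_fun ?_
    intro x
    exact (logDeriv_EE hz x)
  have h2 := logDeriv_tprod_eq_tsum (f := EE a b) (s := Metric.ball (0 : ℂ) (‖z‖ + 1)) (x := z)
    Metric.isOpen_ball (by simp) (fun x => EE_ne hz x)
    (fun x => (EE_diff a b x).differentiableOn) hsum.summable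
    (EE_prod h hr).multipliableLocallyUniformlyOn (P_ne h hz)
  rw [h2, hsum.tsum_eq]

theorem sig_diff (h : Ind a b) : Differentiable ℂ (sig a b) :=
  differentiable_id.mul (P_diff h)

theorem sig_ne (h : Ind a b) {z : ℂ} (hz : Off a b z) : sig a b z ≠ 0 :=
  mul_ne_zero (off_ne hz) (P_ne h hz)

theorem sig_lat (a b : ℂ) (x : ℤ × ℤ) : sig a b (lat a b x) = 0 := by
  rw [sig_eq]
  by_cases hl : lat a b x = 0
  · rw [hl, zero_mul]
  · rw [tprod_of_exists_eq_zero, mul_zero]
    exact ⟨x, by simp [EE, div_self hl]⟩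

theorem sig_neg (a b z : ℂ) : sig a b (-z) = -sig a b z := by
  rw [sig_eq, sig_eq, ← (Equiv.neg (ℤ × ℤ)).tprod_eq, neg_mul]
  congr 2
  refine tprod_congr fun x => ?_
  rw [Equiv.neg_apply]
  unfold EE
  rw [lat_neg, neg_div_neg_eq]

/-- `σ' = ζ σ` -/
theorem sig_deriv (h : Ind a b) {z : ℂ} (hz : Off a b z) :
    HasDerivAt (sig a b) (wz a b z * sig a b z) z := by
  have h0 := off_ne hz
  have h1 := logDeriv_P h hz
  have h2 := (P_diff h z).hasDerivAt
  have h3 := P_ne h hz
  rw [logDeriv_apply, div_eq_iff h3] at h1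
  rw [h1] at h2
  refine ((hasDerivAt_id z).mul h2).congr_deriv ?_
  rw [sig_eq]
  simp only [id]
  field_simp
  ring

theorem sig_deriv_zero (h : Ind a b) : HasDerivAt (sig a b) 1 0 := by
  have h2 := (P_diff h 0).hasDerivAt
  refine ((hasDerivAt_id (0 : ℂ)).mul h2).congr_deriv ?_
  simp [EE_zero]

/-- quasi-periodicity (the sign is `1` iff `x ∈ 2 ℤ²`, not needed) -/
theorem sig_add_lat (h : Ind a b) (x : ℤ × ℤ) : ∃ e : ℂ, (e = 1 ∨ e = -1) ∧ ∀ z,
    sig a b (z + lat a b x) = e * exp (eta a b x * (z + lat a b x / 2)) * sig a b z := by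
  have hd : ∀ z, Off a b z → HasDerivAt (fun z => sig a b (z + lat a b x) /
      (exp (eta a b x * (z + lat a b x / 2)) * sig a b z)) 0 z := by
    intro z hz
    have hz' := (off_add_lat x).2 hz
    have h1 : HasDerivAt (fun z => sig a b (z + lat a b x))
        (wz a b (z + lat a b x) * sig a b (z + lat a b x)) z :=
      HasDerivAt.comp_add_const _ _ (sig_deriv h hz')
    have h2 : HasDerivAt (fun z => exp (eta a b x * (z + lat a b x / 2)))
        (exp (eta a b x * (z + lat a b x / 2)) * eta a b x) z := by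
      have h3 : HasDerivAt (fun z => eta a b x * (z + lat a b x / 2)) (eta a b x) z := by
        simpa using ((hasDerivAt_id z).add_const (lat a b x / 2)).const_mul (eta a b x)
      exact h3.cexp
    have h4 := h2.mul (sig_deriv h hz)
    have h5 : exp (eta a b x * (z + lat a b x / 2)) ≠ 0 := exp_ne_zero _
    have h6 := sig_ne h hz
    refine (h1.div h4 (mul_ne_zero h5 h6)).congr_deriv ?_
    rw [wz_add_lat h hz x]
    rw [div_eq_zero_iff]
    left
    simp only [Pi.mul_apply]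
    ring
  obtain ⟨e, he⟩ := (isOpen_off h).exists_is_const_of_deriv_eq_zero (isPreconnected_off h)
    (f := fun z => sig a b (z + lat a b x) /
      (exp (eta a b x * (z + lat a b x / 2)) * sig a b z))
    (fun z hz => (hd z hz).differentiableAt.differentiableWithinAt)
    (fun z hz => (hd z hz).deriv)
  have hoff : ∀ z, Off a b z → sig a b (z + lat a b x) =
      e * exp (eta a b x * (z + lat a b x / 2)) * sig a b z := by
    intro z hz
    have h1 : sig a b (z + lat a b x) /
      (exp (eta a b x * (z + lat a b x / 2)) * sig a b z) = e := he z hz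
    rw [div_eq_iff (mul_ne_zero (exp_ne_zero _) (sig_ne h hz))] at h1
    rw [h1]
    ring
  have hall : ∀ z, sig a b (z + lat a b x) =
      e * exp (eta a b x * (z + lat a b x / 2)) * sig a b z := by
    intro z
    by_cases hz : Off a b z
    · exact hoff z hz
    · unfold Off at hz
      push Not at hz
      obtain ⟨y, hy⟩ := hz
      rw [hy, ← lat_add, sig_lat, sig_lat, mul_zero]
  refine ⟨e, ?_, hall⟩
  have hz := Zeta.off_half h
  have h1 := hall (a / 2)
  have h2 := hall (-(a / 2) - lat a b x)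
  rw [sub_add_cancel, sig_neg] at h2
  have h3 : -(a / 2) - lat a b x = -(a / 2 + lat a b x) := by ring
  rw [h3, sig_neg, h1] at h2
  have h4 : exp (eta a b x * (-(a / 2 + lat a b x) + lat a b x / 2)) *
      exp (eta a b x * (a / 2 + lat a b x / 2)) = 1 := by
    rw [← exp_add]
    have : eta a b x * (-(a / 2 + lat a b x) + lat a b x / 2) +
      eta a b x * (a / 2 + lat a b x / 2) = 0 := by ring
    rw [this, exp_zero]
  have h5 := sig_ne h hz
  have h6 : (e ^ 2 - 1) * sig a b (a / 2) = 0 := by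
    linear_combination h2 - e ^ 2 * sig a b (a / 2) * h4
  have h7 : e ^ 2 = 1 := by
    have := (mul_eq_zero.1 h6).resolve_right h5
    linear_combination this
  have h8 : (e - 1) * (e + 1) = 0 := by linear_combination h7
  rcases mul_eq_zero.1 h8 with h9 | h9
  · left
    linear_combination h9
  · right
    linear_combination h9

end

end QCL
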