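import Pool.Agent.QCL.Sig

/-!
# QCL.SigAdd : addition formulas for sigma
-/

open Filter Topology Complex

namespace QCL

open Pool.Agent.EllSch

noncomputable section

variable {a b : ℂ}

/-- `f` has at most a removable singularity at `c` -/
private theorem limit_of_mul {f : ℂ → ℂ} {c : ℂ} (hd : ∀ᶠ z in 𝓝[≠] c, DifferentiableAt ℂ f z)
    (h0 : Tendsto (fun z => (z - c) * f z) (𝓝[≠] c) (𝓝 0)) :
    Tendsto f (𝓝[≠] c) (𝓝 (limUnder (𝓝[≠] c) f)) := by
  apply tendsto_limUnder_of_differentiable_on_punctured_nhds_of_isLittleO hd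
  rw [Asymptotics.isLittleO_iff_tendsto']
  · have h1 : Tendsto (fun z : ℂ => (z - c) * f c) (𝓝[≠] c) (𝓝 0) := by
      have h2 : Continuous (fun z : ℂ => (z - c) * f c) := by fun_prop
      have h3 := h2.tendsto c
      rw [sub_self, zero_mul] at h3
      exact h3.mono_left nhdsWithin_le_nhds
    have h4 := h0.sub h1
    rw [sub_zero] at h4
    refine h4.congr fun z => ?_
    rw [div_inv_eq_mul]; ring
  · filter_upwards [self_mem_nhdsWithin] with z hz hz0
    exact absurd (inv_eq_zero.1 hz0) (sub_ne_zero.2 hz)

private theorem tendsto_shift_ne (z l : ℂ) : Tendsto (fun w => w + l) (𝓝[≠] z) (𝓝[≠] (z + l)) := by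
  rw [tendsto_nhdsWithin_iff]
  constructor
  · have h1 : Continuous (fun w : ℂ => w + l) := by fun_prop
    exact (h1.tendsto z).mono_left nhdsWithin_le_nhds
  · filter_upwards [self_mem_nhdsWithin] with w hw
    have hw' : w ≠ z := hw
    simp only [Set.mem_compl_iff, Set.mem_singleton_iff, add_left_inj]
    exact hw'

private theorem tendsto_sub_ne (z l : ℂ) : Tendsto (fun w => w - l) (𝓝[≠] z) (𝓝[≠] (z - l)) := by
  simpa only [sub_eq_add_neg] using tendsto_shift_ne z (-l)

private theorem ev_off (h : Ind a b) (c z : ℂ) : ∀ᶠ u in 𝓝[≠] z, Off a b u ∧ Off a b (u - c) :=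
  (Basic.eventually_off h z).and ((tendsto_sub_ne z c).eventually (Basic.eventually_off h (z - c)))

/-- Liouville for an elliptic function with removable singularities at `0` and at `c` -/
private theorem const_two (h : Ind a b) {f : ℂ → ℂ} {c : ℂ}
    (hf : ∀ z, Off a b z → Off a b (z - c) → DifferentiableAt ℂ f z)
    (hp : ∀ z x, Off a b z → Off a b (z - c) → f (z + lat a b x) = f z)
    (h0 : Tendsto (fun z => z * f z) (𝓝[≠] 0) (𝓝 0))
    (hc : Tendsto (fun z => (z - c) * f z) (𝓝[≠] c) (𝓝 0)) :
    ∃ k, ∀ z, Off a b z → Off a b (z - c) → f z = k := by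
  -- translation of a singularity
  have shift : ∀ z0 x, Tendsto (fun z => (z - z0) * f z) (𝓝[≠] z0) (𝓝 0) →
      Tendsto (fun z => (z - (z0 + lat a b x)) * f z) (𝓝[≠] (z0 + lat a b x)) (𝓝 0) := by
    intro z0 x ht
    have h1 := tendsto_sub_ne (z0 + lat a b x) (lat a b x)
    rw [add_sub_cancel_right] at h1
    refine (ht.comp h1).congr' ?_
    filter_upwards [h1.eventually (ev_off h c z0)] with z hz
    have h2 := hp _ x hz.1 hz.2
    rw [sub_add_cancel] at h2
    simp only [Function.comp_apply, ← h2]
    ring
  have hev : ∀ z, ∀ᶠ u in 𝓝[≠] z, DifferentiableAt ℂ f u := fun z =>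
    (ev_off h c z).mono fun u hu => hf u hu.1 hu.2
  have hR : ∀ z, Tendsto (fun u => (u - z) * f u) (𝓝[≠] z) (𝓝 0) := by
    intro z
    by_cases hz1 : Off a b z
    · by_cases hz2 : Off a b (z - c)
      · have h1 : ContinuousAt (fun u => (u - z) * f u) z :=
          (by fun_prop : ContinuousAt (fun u : ℂ => u - z) z).mul (hf z hz1 hz2).continuousAt
        have h2 := h1.tendsto
        rw [sub_self, zero_mul] at h2
        exact h2.mono_left nhdsWithin_le_nhds
      · obtain ⟨x, hx⟩ := (Basic.not_off_iff a b (z - c)).1 hz2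
        have h1 := shift c x hc
        rw [← hx] at h1
        have e : c + (z - c) = z := by ring
        rwa [e] at h1
    · obtain ⟨x, hx⟩ := (Basic.not_off_iff a b z).1 hz1
      have h1 := shift 0 x (by simpa using h0)
      rw [← hx, zero_add] at h1
      exact h1
  set g : ℂ → ℂ := fun z => limUnder (𝓝[≠] z) f with hg
  have hlim : ∀ z, Tendsto f (𝓝[≠] z) (𝓝 (g z)) := fun z => limit_of_mul (hev z) (hR z)
  have hgf : ∀ z, Off a b z → Off a b (z - c) → g z = f z := by
    intro z h1 h2
    exact tendsto_nhds_unique (hlim z) ((hf z h1 h2).continuousAt.tendsto.mono_left nhdsWithin_le_nhds)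
  have hevg : ∀ z, ∀ᶠ u in 𝓝[≠] z, g u = f u := fun z =>
    (ev_off h c z).mono fun u hu => hgf u hu.1 hu.2
  have hgcont : ∀ z, ContinuousAt g z := by
    intro z
    rw [continuousAt_iff_punctured_nhds]
    exact (hlim z).congr' ((hevg z).mono fun u hu => hu.symm)
  have hgoff : ∀ z, Off a b z → Off a b (z - c) → DifferentiableAt ℂ g z := by
    intro z h1 h2
    refine (hf z h1 h2).congr_of_eventuallyEq ?_
    have h3 : ∀ᶠ u in 𝓝 z, Off a b u := (isOpen_off h).mem_nhds h1
    have h4 : ∀ᶠ u in 𝓝 z, Off a b (u - c) :=
      ((isOpen_off h).preimage (by fun_prop : Continuous fun u : ℂ => u - c)).mem_nhds h2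
    filter_upwards [h3, h4] with u h5 h6
    exact hgf u h5 h6
  have hgdiff : Differentiable ℂ g := by
    intro z
    refine (analyticAt_of_differentiable_on_punctured_nhds_of_continuousAt ?_ (hgcont z)).differentiableAt
    filter_upwards [ev_off h c z] with u hu
    exact hgoff u hu.1 hu.2
  have hgper : ∀ z x, g (z + lat a b x) = g z := by
    intro z x
    have h1 := (hlim (z + lat a b x)).comp (tendsto_shift_ne z (lat a b x))
    refine tendsto_nhds_unique (h1.congr' ?_) (hlim z)
    filter_upwards [ev_off h c z] with u hu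
    exact hp u x hu.1 hu.2
  obtain ⟨k, hk⟩ := const_of_periodic h hgdiff hgper
  exact ⟨k, fun z h1 h2 => by rw [← hgf z h1 h2, hk]⟩

private theorem sig_zero (a b : ℂ) : sig a b 0 = 0 := by
  have := sig_lat a b 0
  rwa [lat_zero] at this

private theorem off_sub_zero {z : ℂ} : Off a b (z - 0) ↔ Off a b z := by rw [sub_zero]

/-- `℘(u) - ℘(v) = - σ(u+v) σ(u-v) / (σ(u)² σ(v)²)` -/
theorem wp_sub (h : Ind a b) {u v : ℂ} (hu : Off a b u) (hv : Off a b v) :
    wp a b u - wp a b v =
      -(sig a b (u + v) * sig a b (u - v) / (sig a b u ^ 2 * sig a b v ^ 2)) := by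
  have hsv := sig_ne h hv
  have hsd := sig_diff h
  set F : ℂ → ℂ := fun w => wp a b w - wp a b v +
    sig a b (w + v) * sig a b (w - v) / (sig a b w ^ 2 * sig a b v ^ 2) with hF
  -- the quotient `σ(w)/w`
  set s : ℂ → ℂ := dslope (sig a b) 0 with hs
  have hs0 : s 0 = 1 := by
    rw [hs, dslope_same]
    exact (sig_deriv_zero h).deriv
  have hsne : ∀ w, w ≠ 0 → s w = sig a b w / w := by
    intro w hw
    rw [hs, dslope_of_ne _ hw, slope_def_field, sig_zero]
    simp
  have hsdiff : Differentiable ℂ s := by
    have h1 := (differentiableOn_dslope (f := sig a b) (s := Set.univ) (c := 0) univ_mem).2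
      hsd.differentiableOn
    rwa [differentiableOn_univ] at h1
  set M : ℂ → ℂ := fun w => sig a b (w + v) * sig a b (w - v) / (s w ^ 2 * sig a b v ^ 2) with hM
  have hMeven : ∀ w, M (-w) = M w := by
    intro w
    have e1 : sig a b (-w + v) = - sig a b (w - v) := by
      rw [← sig_neg]; congr 1; ring
    have e2 : sig a b (-w - v) = - sig a b (w + v) := by
      rw [← sig_neg]; congr 1; ring
    have e3 : s (-w) = s w := by
      by_cases hw : w = 0
      · rw [hw, neg_zero]
      · rw [hsne _ hw, hsne _ (neg_ne_zero.2 hw), sig_neg, neg_div_neg_eq]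
    simp only [hM, e1, e2, e3]
    ring
  have hMd : DifferentiableAt ℂ M 0 := by
    have d1 : DifferentiableAt ℂ (fun w => sig a b (w + v)) 0 :=
      (hsd.comp (by fun_prop : Differentiable ℂ fun w : ℂ => w + v)) 0
    have d2 : DifferentiableAt ℂ (fun w => sig a b (w - v)) 0 :=
      (hsd.comp (by fun_prop : Differentiable ℂ fun w : ℂ => w - v)) 0
    have d3 : DifferentiableAt ℂ (fun w => s w ^ 2 * sig a b v ^ 2) 0 :=
      ((hsdiff 0).pow 2).mul_const _
    refine (d1.mul d2).div d3 ?_
    rw [hs0]
    exact mul_ne_zero (by norm_num) (pow_ne_zero 2 hsv)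
  have hMderiv : deriv M 0 = 0 := by
    have h1 : deriv (fun w => M (-w)) 0 = - deriv M (-0) := deriv_comp_neg M 0
    have h2 : (fun w => M (-w)) = M := funext hMeven
    rw [h2, neg_zero] at h1
    linear_combination (1 / 2 : ℂ) * h1
  have hM0 : M 0 = -1 := by
    simp only [hM, hs0, zero_add, zero_sub, sig_neg]
    field_simp
  have hMlim : Tendsto (fun w => (M w + 1) / w) (𝓝[≠] 0) (𝓝 0) := by
    have h1 := hasDerivAt_iff_tendsto_slope.1 (hMd.hasDerivAt)
    rw [hMderiv] at h1
    refine h1.congr fun w => ?_
    rw [slope_def_field, hM0]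
    simp
  have hkey := const_two h (f := F) (c := 0) (fun z hz _ => by
      have d1 : DifferentiableAt ℂ (fun w => sig a b (w + v)) z :=
        (hsd.comp (by fun_prop : Differentiable ℂ fun w : ℂ => w + v)) z
      have d2 : DifferentiableAt ℂ (fun w => sig a b (w - v)) z :=
        (hsd.comp (by fun_prop : Differentiable ℂ fun w : ℂ => w - v)) z
      have d3 : DifferentiableAt ℂ (fun w => sig a b w ^ 2 * sig a b v ^ 2) z :=
        ((hsd z).pow 2).mul_const _
      exact ((Basic.differentiableAt_wp h hz).sub_const _).add ((d1.mul d2).div d3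
        (mul_ne_zero (pow_ne_zero 2 (sig_ne h hz)) (pow_ne_zero 2 hsv))))
    (fun z x hz _ => by
      obtain ⟨e, he, hx⟩ := sig_add_lat h x
      have hz0 := sig_ne h hz
      have e2 : e ^ 2 = 1 := by rcases he with rfl | rfl <;> norm_num
      have he0 : e ≠ 0 := by rcases he with rfl | rfl <;> norm_num
      simp only [hF]
      rw [wp_add_lat h]
      congr 1
      have h1 : z + lat a b x + v = (z + v) + lat a b x := by ring
      have h2 : z + lat a b x - v = (z - v) + lat a b x := by ring
      rw [h1, h2, hx, hx, hx]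
      have h3 : exp (eta a b x * (z + v + lat a b x / 2)) * exp (eta a b x * (z - v + lat a b x / 2)) =
          exp (eta a b x * (z + lat a b x / 2)) ^ 2 := by
        rw [← exp_add, ← exp_nat_mul]
        congr 1
        push_cast
        ring
      have hE := exp_ne_zero (eta a b x * (z + lat a b x / 2))
      rw [div_eq_div_iff (mul_ne_zero (pow_ne_zero 2 (mul_ne_zero (mul_ne_zero he0 hE) hz0)) (pow_ne_zero 2 hsv))
        (mul_ne_zero (pow_ne_zero 2 hz0) (pow_ne_zero 2 hsv))]
      linear_combination (e ^ 2 * sig a b (z + v) * sig a b (z - v) * (sig a b z ^ 2 * sig a b v ^ 2)) * h3)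
    (by
      have h1 := Add.tendsto_wp_sub h
      have h2 : Tendsto (fun w : ℂ => w) (𝓝[≠] 0) (𝓝 0) := Add.tendsto_id_zero _ le_rfl
      have h3 := ((h2.mul h1).sub (h2.mul_const (wp a b v))).add hMlim
      simp only [mul_zero, zero_mul, sub_zero, add_zero] at h3
      refine h3.congr' ?_
      filter_upwards [self_mem_nhdsWithin, Basic.eventually_off h 0] with w hw hw2
      have hw0 : w ≠ 0 := hw
      have hsw := sig_ne h hw2
      simp only [hF, hM, hsne w hw0]
      field_simp
      ring)
    (by
      have h1 := Add.tendsto_wp_sub h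
      have h2 : Tendsto (fun w : ℂ => w) (𝓝[≠] 0) (𝓝 0) := Add.tendsto_id_zero _ le_rfl
      have h3 := ((h2.mul h1).sub (h2.mul_const (wp a b v))).add hMlim
      simp only [mul_zero, zero_mul, sub_zero, add_zero] at h3
      refine h3.congr' ?_
      filter_upwards [self_mem_nhdsWithin, Basic.eventually_off h 0] with w hw hw2
      have hw0 : w ≠ 0 := hw
      have hsw := sig_ne h hw2
      simp only [hF, hM, hsne w hw0]
      field_simp
      ring)
  obtain ⟨k, hk⟩ := hkey
  have hk0 : k = 0 := by
    rw [← hk v hv (off_sub_zero.2 hv)]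
    simp only [hF, sub_self, sig_zero]
    ring
  have := hk u hu (off_sub_zero.2 hu)
  rw [hk0] at this
  simp only [hF] at this
  linear_combination this

private theorem tendsto_id_mul_wz (h : Ind a b) : Tendsto (fun u => u * wz a b u) (𝓝[≠] 0) (𝓝 1) := by
  have h1 := Add.tendsto_wz_sub h
  have h2 : Tendsto (fun w : ℂ => w) (𝓝[≠] 0) (𝓝 0) := Add.tendsto_id_zero _ le_rfl
  have h3 := (h2.mul h1).add_const 1
  rw [mul_zero, zero_add] at h3
  refine h3.congr' ?_
  filter_upwards [self_mem_nhdsWithin] with w hw
  have hw0 : w ≠ 0 := hw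
  field_simp
  ring

private theorem tendsto_div_sig (h : Ind a b) : Tendsto (fun u => u / sig a b u) (𝓝[≠] 0) (𝓝 1) := by
  have h1 := (hasDerivAt_iff_tendsto_slope.1 (sig_deriv_zero h)).inv₀ one_ne_zero
  rw [inv_one] at h1
  refine h1.congr fun w => ?_
  rw [slope_def_field, sig_zero]
  simp

/-- `ζ(p) + ζ(q) + ζ(r) - ζ(p+q+r) = σ(p+q) σ(q+r) σ(r+p) / (σ(p) σ(q) σ(r) σ(p+q+r))` -/
theorem wz_three (h : Ind a b) {p q r : ℂ} (hp : Off a b p) (hq : Off a b q) (hr : Off a b r)
    (hs : Off a b (p + q + r)) :
    wz a b p + wz a b q + wz a b r - wz a b (p + q + r) =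
      sig a b (p + q) * sig a b (q + r) * sig a b (r + p) /
        (sig a b p * sig a b q * sig a b r * sig a b (p + q + r)) := by
  have hsd := sig_diff h
  by_cases hqr : Off a b (q + r)
  swap
  · obtain ⟨x, hx⟩ := (Basic.not_off_iff a b _).1 hqr
    have e1 : sig a b (q + r) = 0 := by rw [hx]; exact sig_lat a b x
    have e2 : p + q + r = p + lat a b x := by rw [← hx]; ring
    have e3 : r = -q + lat a b x := by rw [← hx]; ring
    have e4 : wz a b r = -wz a b q + eta a b x := by
      rw [e3, wz_add_lat h (off_neg.2 hq), wz_neg]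
    rw [e1, e2, wz_add_lat h hp, e4]
    ring
  have hsq := sig_ne h hq
  have hsr := sig_ne h hr
  have hss := sig_ne h hqr
  set s : ℂ := q + r with hsdef
  set F : ℂ → ℂ := fun w => wz a b w + wz a b q + wz a b r - wz a b (w + s) -
    sig a b (w + q) * sig a b s * sig a b (r + w) /
      (sig a b w * sig a b q * sig a b r * sig a b (w + s)) with hF
  have cont_sig : ∀ (g : ℂ → ℂ), Continuous g → Continuous (fun w => sig a b (g w)) := fun g hg =>
    hsd.continuous.comp hg
  have off_c : ∀ z, Off a b (z - (-s)) ↔ Off a b (z + s) := fun z => by rw [sub_neg_eq_add]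
  have hlim0 : Tendsto (fun w : ℂ => w) (𝓝[≠] 0) (𝓝 0) := Add.tendsto_id_zero _ le_rfl
  have hkey := const_two h (f := F) (c := -s) (fun z hz hz' => by
      rw [off_c] at hz'
      have d0 : DifferentiableAt ℂ (wz a b) z := (hasDerivAt_wz h hz).differentiableAt
      have d1 : DifferentiableAt ℂ (fun w => wz a b (w + s)) z :=
        ((hasDerivAt_wz h hz').comp_add_const z s).differentiableAt
      have d2 : DifferentiableAt ℂ (fun w => sig a b (w + q) * sig a b s * sig a b (r + w)) z :=
        (((hsd.comp (by fun_prop : Differentiable ℂ fun w : ℂ => w + q)) z).mul_const _).mul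
          ((hsd.comp (by fun_prop : Differentiable ℂ fun w : ℂ => r + w)) z)
      have d3 : DifferentiableAt ℂ (fun w => sig a b w * sig a b q * sig a b r * sig a b (w + s)) z :=
        (((hsd z).mul_const _).mul_const _).mul
          ((hsd.comp (by fun_prop : Differentiable ℂ fun w : ℂ => w + s)) z)
      exact (((d0.add_const _).add_const _).sub d1).sub (d2.div d3
        (mul_ne_zero (mul_ne_zero (mul_ne_zero (sig_ne h hz) hsq) hsr) (sig_ne h hz'))))
    (fun z x hz hz' => by
      rw [off_c] at hz'
      obtain ⟨e, he, hx⟩ := sig_add_lat h x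
      have hz0 := sig_ne h hz
      have hz1 := sig_ne h hz'
      have he0 : e ≠ 0 := by rcases he with rfl | rfl <;> norm_num
      simp only [hF]
      have h1 : z + lat a b x + s = (z + s) + lat a b x := by ring
      have h2 : z + lat a b x + q = (z + q) + lat a b x := by ring
      have h2' : r + (z + lat a b x) = (r + z) + lat a b x := by ring
      rw [h1, h2, h2', hx, hx, hx, hx, wz_add_lat h hz, wz_add_lat h hz']
      have h3 : exp (eta a b x * (z + q + lat a b x / 2)) * exp (eta a b x * (r + z + lat a b x / 2)) =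
          exp (eta a b x * (z + lat a b x / 2)) * exp (eta a b x * (z + s + lat a b x / 2)) := by
        rw [← exp_add, ← exp_add]
        congr 1
        rw [hsdef]
        ring
      have hE := exp_ne_zero (eta a b x * (z + lat a b x / 2))
      have hE' := exp_ne_zero (eta a b x * (z + s + lat a b x / 2))
      have h4 : e * exp (eta a b x * (z + q + lat a b x / 2)) * sig a b (z + q) * sig a b s *
            (e * exp (eta a b x * (r + z + lat a b x / 2)) * sig a b (r + z)) /
          (e * exp (eta a b x * (z + lat a b x / 2)) * sig a b z * sig a b q * sig a b r *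
            (e * exp (eta a b x * (z + s + lat a b x / 2)) * sig a b (z + s))) =
          sig a b (z + q) * sig a b s * sig a b (r + z) /
            (sig a b z * sig a b q * sig a b r * sig a b (z + s)) := by
        rw [div_eq_div_iff
          (mul_ne_zero (mul_ne_zero (mul_ne_zero (mul_ne_zero (mul_ne_zero he0 hE) hz0) hsq) hsr)
            (mul_ne_zero (mul_ne_zero he0 hE') hz1))
          (mul_ne_zero (mul_ne_zero (mul_ne_zero hz0 hsq) hsr) hz1)]
        linear_combination (e ^ 2 * sig a b (z + q) * sig a b s * sig a b (r + z) *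
          (sig a b z * sig a b q * sig a b r * sig a b (z + s))) * h3
      rw [h4]
      ring)
    (by
      -- the singularity at `0`
      have g1 := tendsto_id_mul_wz h
      have g2 := tendsto_div_sig h
      have g3 : Tendsto (fun w => wz a b (w + s)) (𝓝[≠] 0) (𝓝 (wz a b s)) := by
        have c1 : ContinuousAt (fun w => wz a b (w + s)) 0 := by
          refine ContinuousAt.comp (g := wz a b) (f := fun w => w + s) ?_ (by fun_prop)
          simp only [zero_add]
          exact (hasDerivAt_wz h hqr).continuousAt
        have c2 := c1.tendsto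
        simp only [zero_add] at c2
        exact c2.mono_left nhdsWithin_le_nhds
      have g4 : Tendsto (fun w => sig a b (w + q) * sig a b s * sig a b (r + w) /
          (sig a b q * sig a b r * sig a b (w + s))) (𝓝[≠] 0) (𝓝 1) := by
        have c0 : Continuous (fun w => sig a b (w + q) * sig a b s * sig a b (r + w)) :=
          ((cont_sig _ (by fun_prop)).mul continuous_const).mul (cont_sig _ (by fun_prop))
        have c0' : Continuous (fun w => sig a b q * sig a b r * sig a b (w + s)) :=
          continuous_const.mul (cont_sig _ (by fun_prop))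
        have c1 : ContinuousAt (fun w => sig a b (w + q) * sig a b s * sig a b (r + w) /
            (sig a b q * sig a b r * sig a b (w + s))) 0 := by
          refine c0.continuousAt.div c0'.continuousAt ?_
          simp only [zero_add]
          exact mul_ne_zero (mul_ne_zero hsq hsr) hss
        have c2 := c1.tendsto
        simp only [zero_add, add_zero] at c2
        have e1 : sig a b q * sig a b s * sig a b r / (sig a b q * sig a b r * sig a b s) = 1 := by
          field_simp
        rw [e1] at c2
        exact c2.mono_left nhdsWithin_le_nhds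
      have g5 := ((g1.add (hlim0.mul_const (wz a b q + wz a b r))).sub (hlim0.mul g3)).sub (g2.mul g4)
      simp only [zero_mul, add_zero, sub_zero, mul_one, sub_self] at g5
      refine g5.congr' ?_
      filter_upwards [Basic.eventually_off h 0] with w hw
      have hsw := sig_ne h hw
      simp only [hF]
      rw [div_mul_div_comm]
      have e1 : w * (sig a b (w + q) * sig a b s * sig a b (r + w)) /
          (sig a b w * (sig a b q * sig a b r * sig a b (w + s))) =
          w * (sig a b (w + q) * sig a b s * sig a b (r + w) /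
            (sig a b w * sig a b q * sig a b r * sig a b (w + s))) := by
        rw [mul_div_assoc]
        congr 2
        ring
      rw [e1]
      ring)
    (by
      -- the singularity at `-s`
      have t0 : Tendsto (fun w => w + s) (𝓝[≠] (-s)) (𝓝[≠] 0) := by
        have := tendsto_shift_ne (-s) s
        rwa [neg_add_cancel] at this
      have g0 : Tendsto (fun w => w + s) (𝓝[≠] (-s)) (𝓝 0) := t0.mono_right nhdsWithin_le_nhds
      have g1 := (tendsto_id_mul_wz h).comp t0
      have g2 := (tendsto_div_sig h).comp t0
      have g3 : Tendsto (wz a b) (𝓝[≠] (-s)) (𝓝 (wz a b (-s))) :=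
        (hasDerivAt_wz h (off_neg.2 hqr)).continuousAt.tendsto.mono_left nhdsWithin_le_nhds
      have g4 : Tendsto (fun w => sig a b (w + q) * sig a b s * sig a b (r + w) /
          (sig a b w * sig a b q * sig a b r)) (𝓝[≠] (-s)) (𝓝 (-1)) := by
        have c0 : Continuous (fun w => sig a b (w + q) * sig a b s * sig a b (r + w)) :=
          ((cont_sig _ (by fun_prop)).mul continuous_const).mul (cont_sig _ (by fun_prop))
        have c0' : Continuous (fun w => sig a b w * sig a b q * sig a b r) :=
          ((cont_sig _ continuous_id).mul continuous_const).mul continuous_const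
        have hms : sig a b (-s) ≠ 0 := sig_ne h (off_neg.2 hqr)
        have c1 : ContinuousAt (fun w => sig a b (w + q) * sig a b s * sig a b (r + w) /
            (sig a b w * sig a b q * sig a b r)) (-s) :=
          c0.continuousAt.div c0'.continuousAt (mul_ne_zero (mul_ne_zero hms hsq) hsr)
        have c2 := c1.tendsto
        have e2 : -s + q = -r := by rw [hsdef]; ring
        have e3 : r + -s = -q := by rw [hsdef]; ring
        have e1 : sig a b (-s + q) * sig a b s * sig a b (r + -s) / (sig a b (-s) * sig a b q * sig a b r) = -1 := by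
          rw [e2, e3, sig_neg, sig_neg, sig_neg]
          field_simp
        rw [e1] at c2
        exact c2.mono_left nhdsWithin_le_nhds
      have g5 := (((g0.mul g3).add (g0.mul_const (wz a b q + wz a b r))).sub g1).sub (g2.mul g4)
      simp only [zero_mul, add_zero, zero_sub, mul_neg, mul_one, sub_neg_eq_add, neg_add_cancel] at g5
      refine g5.congr' ?_
      filter_upwards [t0.eventually (Basic.eventually_off h 0)] with w hw
      have hsw := sig_ne h hw
      simp only [hF, Function.comp_apply, sub_neg_eq_add]
      rw [div_mul_div_comm]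
      have e1 : (w + s) * (sig a b (w + q) * sig a b s * sig a b (r + w)) /
          (sig a b (w + s) * (sig a b w * sig a b q * sig a b r)) =
          (w + s) * (sig a b (w + q) * sig a b s * sig a b (r + w) /
            (sig a b w * sig a b q * sig a b r * sig a b (w + s))) := by
        rw [mul_div_assoc]
        congr 2
        ring
      rw [e1]
      ring)
  obtain ⟨k, hk⟩ := hkey
  have e5 : -q + s = r := by rw [hsdef]; ring
  have hk0 : k = 0 := by
    rw [← hk (-q) (off_neg.2 hq) (by rw [off_c, e5]; exact hr)]
    simp only [hF]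
    rw [e5, neg_add_cancel, sig_zero, wz_neg]
    ring
  have e6 : p + s = p + q + r := by rw [hsdef]; ring
  have := hk p hp (by rw [off_c, e6]; exact hs)
  rw [hk0] at this
  simp only [hF] at this
  rw [e6] at this
  linear_combination this

end

end QCL
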